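import Pool.Agent.Helper89.SP.Defs

/-!
Module SP-10c of project SP (MP_66ebcc_gt): one large coordinate.
-/

set_option autoImplicit false

open MeasureTheory Set Real Slab

namespace Pool.Agent.Helper89.SP

theorem Phat_cases (s : ℝ) : Phat s ≤ 1 - s ∨ (Phat s ≤ 0.1716 ∧ 0.828 ≤ s) := by
  have h2a : (1.41421 : ℝ) < √2 := by
    rw [Real.lt_sqrt (by norm_num)]; norm_num
  have h2b : √2 < (1.41422 : ℝ) := by
    rw [Real.sqrt_lt' (by norm_num)]; norm_num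
  have h2 : √2 * √2 = 2 := Real.mul_self_sqrt (by norm_num)
  unfold Phat
  split_ifs with h h'
  · left; exact le_rfl
  · right
    push Not at h
    refine ⟨?_, by linarith⟩
    have h3 : √2 - s ≤ 2 - √2 := by linarith
    have h4 : 0 ≤ √2 - s := by linarith
    nlinarith [mul_self_nonneg (2 - √2 - (√2 - s)), mul_nonneg h4 (sub_nonneg.2 h3)]
  · right
    push Not at h
    exact ⟨by norm_num, by linarith⟩

theorem exp_tail {t p : ℝ} (hp0 : 0 < p) (ht0 : 0 < t) (hp1 : p < 1) (htp : t * p ≤ 1)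
    (h : 6.28 * (1 - p ^ 2) ≤ (t + p) ^ 2) :
    (1 + t * p) * exp (-(3 / 2) * ((t + p) ^ 2 / (1 - p ^ 2))) ≤ 0.00017 := by
  have hw : 0 < 1 - p ^ 2 := by nlinarith
  have h1 : 6.28 ≤ (t + p) ^ 2 / (1 - p ^ 2) := by
    rw [le_div_iff₀ hw]; exact h
  have h2 : exp (-(3 / 2) * ((t + p) ^ 2 / (1 - p ^ 2))) ≤ exp (-9.42) :=
    exp_le_exp.2 (by nlinarith)
  have h3 : (11765 : ℝ) ≤ exp 9.42 := by
    have e1 : exp 9.42 = exp 1 ^ 9 * exp 0.42 := by
      rw [← Real.exp_nat_mul, ← Real.exp_add]; norm_num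
    have e2 : (2.7182 : ℝ) ^ 9 ≤ exp 1 ^ 9 :=
      pow_le_pow_left₀ (by norm_num) (by linarith [Real.exp_one_gt_d9]) 9
    have e3 : (1.5 : ℝ) ≤ exp 0.42 := by
      have := Real.quadratic_le_exp_of_nonneg (x := 0.42) (by norm_num)
      norm_num at this ⊢
      linarith
    rw [e1]
    calc (11765 : ℝ) ≤ 2.7182 ^ 9 * 1.5 := by norm_num
      _ ≤ exp 1 ^ 9 * exp 0.42 := mul_le_mul e2 e3 (by norm_num) (by positivity)
  have h4 : exp (-9.42) ≤ 0.000085 := by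
    rw [Real.exp_neg, inv_le_comm₀ (exp_pos _) (by norm_num)]
    refine le_trans ?_ h3
    norm_num
  have h5 : 0 ≤ exp (-(3 / 2) * ((t + p) ^ 2 / (1 - p ^ 2))) := (exp_pos _).le
  have h6 : 0 ≤ t * p := by positivity
  calc (1 + t * p) * exp (-(3 / 2) * ((t + p) ^ 2 / (1 - p ^ 2)))
      ≤ 2 * 0.000085 := mul_le_mul (by linarith) (h2.trans h4) h5 (by norm_num)
    _ = 0.00017 := by norm_num

/-- tangent lines of the fourth power -/
theorem T4_ge (t b : ℝ) : (b ^ 4 + 4 * b ^ 3 * ((2 - t) - b)) / 12 ≤ T4 t := by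
  unfold T4
  have : 0 ≤ (2 - t - b) ^ 2 * ((2 - t + b) ^ 2 + 2 * b ^ 2) := by positivity
  nlinarith

theorem Mf_ge {t : ℝ} (ht : t ≤ 1.2) (ht0 : 1.02 ≤ t) :
    0.07816 - 0.32932 * (t - 1.02) ≤ Mf t := by
  have h3 : √3 < (1.73206 : ℝ) := by
    rw [Real.sqrt_lt' (by norm_num)]; norm_num
  unfold Mf
  have h4 : 3 - 1.73206 * t ≤ 3 - √3 * t := by nlinarith
  have h5 : 0 ≤ 3 - 1.73206 * t := by nlinarith
  have h6 : (3 - 1.73206 * t) ^ 3 ≤ (3 - √3 * t) ^ 3 := pow_le_pow_left₀ h5 h4 3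
  have h7 : 0 ≤ (3 - 1.73206 * t - 1.2332988) ^ 2 * (3 - 1.73206 * t + 2 * 1.2332988) := by
    positivity
  nlinarith

/-- the case `p ≥ 0.72`, small `u` -/
theorem main_a {t p w : ℝ} (hp : 0.72 ≤ p) (hp1 : p < 1) (ht : 1.02 ≤ t) (htp : t * p ≤ 1)
    (hw : 0 < w) (hw2 : w ^ 2 = 1 - p ^ 2) :
    (1 - t * p) * ((1 - (t - p) / w) / 2) + 0.00017 < max (Mf t) (T4 t) := by
  obtain ⟨x, hx⟩ : ∃ x, x = p - 0.72 := ⟨_, rfl⟩
  obtain ⟨y, hy⟩ : ∃ y, y = t - 1.02 := ⟨_, rfl⟩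
  have hx0 : 0 ≤ x := by linarith
  have hy0 : 0 ≤ y := by linarith
  have hx1 : x < 0.28 := by linarith
  have hp' : p = 0.72 + x := by linarith
  have ht' : t = 1.02 + y := by linarith
  have hy1 : y ≤ 0.37 := by nlinarith
  -- lower bound of `1 / w`
  have hL : (1.44097 + 2.15 * x) ≤ 1 / w := by
    rw [le_div_iff₀ hw]
    have hL0 : 0 ≤ (1.44097 + 2.15 * x) * w := by positivity
    have h2 : ((1.44097 + 2.15 * x) * w) ^ 2 ≤ 1 := by
      rw [mul_pow, hw2, hp']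
      have hx3 : 0 ≤ x ^ 2 := by positivity
      have hx4 : 0 ≤ x ^ 3 := by positivity
      have hx5 : 0 ≤ x ^ 4 := by positivity
      nlinarith
    nlinarith
  have hA : 0 ≤ 1 - t * p := by linarith
  have hu : (t - p) * (1.44097 + 2.15 * x) ≤ (t - p) / w := by
    rw [div_eq_mul_one_div]
    exact mul_le_mul_of_nonneg_left hL (by linarith)
  have h1 : (1 - t * p) * ((1 - (t - p) / w) / 2) ≤
      (1 - t * p) * ((1 - (t - p) * (1.44097 + 2.15 * x)) / 2) :=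
    mul_le_mul_of_nonneg_left (by linarith) hA
  have h2 : (1 - t * p) * ((1 - (t - p) * (1.44097 + 2.15 * x)) / 2) ≤
      (0.2656 - 0.72 * y) * (0.567709 - 1.44097 * y) / 2 := by
    rw [hp', ht']
    have hxy : 0 ≤ x * (0.367653 + 0.242058 * y - 2.98897 * y ^ 2) := by
      apply mul_nonneg hx0; nlinarith
    have hxy2 : 0 ≤ x ^ 2 * (0.240849 + 0.15097 * y - 2.15 * y ^ 2) := by
      apply mul_nonneg (by positivity); nlinarith
    have hx3 : 0 ≤ x ^ 3 := by positivity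
    have hx3y : 0 ≤ x ^ 3 * y := by positivity
    have hx2 : 0 ≤ x ^ 2 := by positivity
    have hx2y : 0 ≤ x ^ 2 * y := by positivity
    have hxy3 : 0 ≤ x * y := by positivity
    nlinarith
  rw [lt_max_iff]
  rcases le_total y 0.1 with h | h
  · left
    have h3 := Mf_ge (t := t) (by linarith) ht
    have : t - 1.02 = y := hy.symm
    rw [this] at h3
    nlinarith
  · right
    have h3 := T4_ge t 0.8
    have h4 : (2 - t) - 0.8 = 0.18 - y := by linarith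
    rw [h4] at h3
    have h5 : 0 ≤ (y - 0.1) * (0.37 - y) := mul_nonneg (by linarith) (by linarith)
    nlinarith

/-- the case `p ≥ 0.72`, large `u` -/
theorem main_b {t p w : ℝ} (hp : 0.72 ≤ p) (hp1 : p < 1) (ht : 1.02 ≤ t) (htp : t * p ≤ 1)
    (hw : 0 < w) (hw2 : w ^ 2 = 1 - p ^ 2) (hu : 0.828 ≤ (t - p) / w) :
    (1 - t * p) * (0.1716 / 2) + 0.00017 < max (Mf t) (T4 t) := by
  rw [le_div_iff₀ hw] at hu
  have h1 : 0.88 ≤ t * p := by
    by_contra hc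
    push Not at hc
    have h2 : 0.828 * (p * w) ≤ t * p - p ^ 2 := by nlinarith
    have h3 : 0.828 * (p * w) ≤ 0.88 - p ^ 2 := by linarith
    have h4 : 0 < p * w := by positivity
    have h5 : (0.828 * (p * w)) ^ 2 ≤ (0.88 - p ^ 2) ^ 2 := pow_le_pow_left₀ (by positivity) h3 2
    have h6 : (0.828 * (p * w)) ^ 2 = 0.828 ^ 2 * (p ^ 2 * (1 - p ^ 2)) := by
      rw [← hw2]; ring
    rw [h6] at h5
    have h7 : 0.5184 ≤ p ^ 2 := by nlinarith
    have h8 : p ^ 2 ≤ 0.88 := by nlinarith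
    nlinarith [mul_nonneg (sub_nonneg.2 h7) (sub_nonneg.2 h8)]
  have h2 : t ≤ 1.3889 := by nlinarith
  rw [lt_max_iff]
  right
  have h3 := T4_ge t 0.6
  nlinarith

/-- the case `p ≤ 0.72`, small `u` -/
theorem main_c {t p w : ℝ} (hp : 0.66 ≤ p) (hp1 : p ≤ 0.72) (ht : 1.26 ≤ t) (htp : t * p ≤ 1)
    (hw : 0 < w) (hw2 : w ^ 2 = 1 - p ^ 2) :
    (1 - t * p) * ((1 - (t - p) / w) / 2) + 0.00017 < max (Mf t) (T4 t) := by
  have hL : (1.331 : ℝ) ≤ 1 / w := by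
    rw [le_div_iff₀ hw]
    nlinarith
  have hA : 0 ≤ 1 - t * p := by linarith
  have hu : (t - p) * 1.331 ≤ (t - p) / w := by
    rw [div_eq_mul_one_div]
    exact mul_le_mul_of_nonneg_left hL (by linarith)
  have ht2 : t ≤ 1.5152 := by nlinarith
  have h3a := T4_ge t 0.7
  have h3b := T4_ge t 0.55
  rw [lt_max_iff]
  right
  have h1 : (1 - t * p) * ((1 - (t - p) / w) / 2) ≤ (1 - t * p) * ((1 - (t - p) * 1.331) / 2) :=
    mul_le_mul_of_nonneg_left (by linarith) hA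
  rcases le_total (1 - (t - p) * 1.331) 0 with h | h
  · have h2 : (1 - t * p) * ((1 - (t - p) * 1.331) / 2) ≤ 0 :=
      mul_nonpos_of_nonneg_of_nonpos hA (by linarith)
    nlinarith
  · have h2 : (1 - t * p) * ((1 - (t - p) * 1.331) / 2) ≤
        (1 - 0.66 * t) * ((1.95832 - 1.331 * t) / 2) :=
      mul_le_mul (by nlinarith) (by linarith) (by linarith) (by nlinarith)
    rcases le_total t 1.42 with h4 | h4
    · nlinarith [mul_nonneg (sub_nonneg.2 ht) (sub_nonneg.2 h4)]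
    · have h5 : t ≤ 1.4714 := by linarith
      nlinarith [mul_nonneg (sub_nonneg.2 h4) (sub_nonneg.2 h5)]

/-- the case `p ≤ 0.72`, large `u` -/
theorem main_d {t p : ℝ} (hp : 0.66 ≤ p) (ht : 1.26 ≤ t) (htp : t * p ≤ 1) :
    (1 - t * p) * (0.1716 / 2) + 0.00017 < max (Mf t) (T4 t) := by
  have ht2 : t ≤ 1.5152 := by nlinarith
  have h3 := T4_ge t 0.6
  rw [lt_max_iff]
  right
  nlinarith

theorem fact_G {t p : ℝ} (hp : 0.66 ≤ p) (hp1 : p < 1) (ht : 1.02 ≤ t) (h : 0.72 ≤ p ∨ 1.26 ≤ t)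
    (htp : t * p ≤ 1) :
    (1 - t * p) * (Phat ((t - p) / √(1 - p ^ 2)) / 2) +
      (1 + t * p) * exp (-(3 / 2) * ((t + p) ^ 2 / (1 - p ^ 2))) < max (Mf t) (T4 t) := by
  have hw2 : 0 < 1 - p ^ 2 := by nlinarith
  have hw : 0 < √(1 - p ^ 2) := Real.sqrt_pos.2 hw2
  have hw3 : √(1 - p ^ 2) ^ 2 = 1 - p ^ 2 := Real.sq_sqrt hw2.le
  have hA : 0 ≤ 1 - t * p := by linarith
  have hE : (1 + t * p) * exp (-(3 / 2) * ((t + p) ^ 2 / (1 - p ^ 2))) ≤ 0.00017 := by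
    refine exp_tail (by linarith) (by linarith) hp1 htp ?_
    rcases h with h | h <;> nlinarith
  refine lt_of_le_of_lt (add_le_add le_rfl hE) ?_
  rcases Phat_cases ((t - p) / √(1 - p ^ 2)) with h1 | ⟨h1, h2⟩
  · have h3 : (1 - t * p) * (Phat ((t - p) / √(1 - p ^ 2)) / 2) ≤
        (1 - t * p) * ((1 - (t - p) / √(1 - p ^ 2)) / 2) :=
      mul_le_mul_of_nonneg_left (by linarith) hA
    refine lt_of_le_of_lt (add_le_add h3 le_rfl) ?_
    rcases le_total 0.72 p with h4 | h4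
    · exact main_a h4 hp1 ht htp hw hw3
    · rcases h with h | h
      · exact main_a h hp1 ht htp hw hw3
      · exact main_c hp h4 h htp hw hw3
  · have h3 : (1 - t * p) * (Phat ((t - p) / √(1 - p ^ 2)) / 2) ≤
        (1 - t * p) * (0.1716 / 2) :=
      mul_le_mul_of_nonneg_left (by linarith) hA
    refine lt_of_le_of_lt (add_le_add h3 le_rfl) ?_
    rcases h with h | h
    · exact main_b h hp1 ht htp hw hw3 h2
    · exact main_d hp h htp

end Pool.Agent.Helper89.SP
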